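import Pool.Agent.T6.H98.CP.Fin

/-!
# Two-subgraph small-diameter covers of a cocktail-party graph (MP_9fa5c3_co, Q1)

Let `Gₙ` be the complete graph on `n` vertices (`n` even) without the edges of a perfect matching.
Every 2-colouring of the edges of `Gₙ` has a `(2,2)`-cover: two monochromatic subgraphs of diameter
at most `2` which together contain all vertices.  The same holds for every nonempty graph, finite
or infinite, in which every vertex is non-adjacent to at most one other vertex.
-/

set_option autoImplicit false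

namespace Pool.Agent.Results.MP_9fa5c3_co.TwoTwoCovers

/-- The subgraph `H` is monochromatic: all its edges have the same colour (a one-vertex subgraph
counts). Only the values of `c` on the edges of the graph play a role. -/
def Monochromatic {V : Type} {G : SimpleGraph V} (c : Sym2 V → Bool) (H : G.Subgraph) : Prop :=
  ∃ b : Bool, ∀ e ∈ H.edgeSet, c e = b

/-- The graph `G` with the edge colouring `c` has a `(p,q)`-cover: two (nonempty) monochromatic
subgraphs of diameter at most `p` and at most `q` which together contain all vertices. The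
diameter is the one of the subgraph itself (infinite if the subgraph is not connected). -/
def HasCover {V : Type} (G : SimpleGraph V) (c : Sym2 V → Bool) (p q : ℕ) : Prop :=
  ∃ H₁ H₂ : G.Subgraph, Monochromatic c H₁ ∧ Monochromatic c H₂ ∧
    H₁.verts.Nonempty ∧ H₂.verts.Nonempty ∧
    H₁.coe.ediam ≤ (p : ℕ∞) ∧ H₂.coe.ediam ≤ (q : ℕ∞) ∧ H₁.verts ∪ H₂.verts = Set.univ

open Pool.Agent.T6.H98.CP

/-- adjacency in colour `b` -/
def colAdj {V : Type} (G : SimpleGraph V) (c : Sym2 V → Bool) (b : Bool) (x y : V) : Prop :=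
  G.Adj x y ∧ c s(x, y) = b

/-- the subgraph spanned by `S` in colour `b` -/
def sub {V : Type} (G : SimpleGraph V) (c : Sym2 V → Bool) (b : Bool) (S : V → Prop) :
    G.Subgraph where
  verts := {x | S x}
  Adj x y := S x ∧ S y ∧ colAdj G c b x y
  adj_sub := fun h => h.2.2.1
  edge_vert := fun h => h.1
  symm := ⟨fun _ _ h => ⟨h.2.1, h.1, h.2.2.1.symm, by rw [Sym2.eq_swap]; exact h.2.2.2⟩⟩

theorem sub_mono {V : Type} (G : SimpleGraph V) (c : Sym2 V → Bool) (b : Bool) (S : V → Prop) :
    Monochromatic c (sub G c b S) := by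
  refine ⟨b, fun e => ?_⟩
  induction e with
  | h x y =>
    intro h
    rw [SimpleGraph.Subgraph.mem_edgeSet] at h
    exact h.2.2.2

theorem sub_ediam {V : Type} (G : SimpleGraph V) (c : Sym2 V → Bool) (b : Bool) (S : V → Prop)
    (h : Good (colAdj G c b) S) : (sub G c b S).coe.ediam ≤ ((2 : ℕ) : ℕ∞) := by
  rw [SimpleGraph.ediam_le_iff]
  rintro ⟨x, hx⟩ ⟨y, hy⟩
  rcases h x hx y hy with e | e | ⟨z, hz, h1, h2⟩
  · subst e
    rw [SimpleGraph.edist_self]
    exact bot_le
  · have ha : (sub G c b S).coe.Adj ⟨x, hx⟩ ⟨y, hy⟩ := ⟨hx, hy, e⟩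
    refine (SimpleGraph.edist_le ha.toWalk).trans ?_
    simp only [SimpleGraph.Walk.length_cons, SimpleGraph.Walk.length_nil]
    norm_num
  · have ha : (sub G c b S).coe.Adj ⟨x, hx⟩ ⟨z, hz⟩ :=
      ⟨hx, hz, h1.1.symm, by rw [Sym2.eq_swap]; exact h1.2⟩
    have hb : (sub G c b S).coe.Adj ⟨z, hz⟩ ⟨y, hy⟩ := ⟨hz, hy, h2⟩
    refine (SimpleGraph.edist_le (SimpleGraph.Walk.cons ha hb.toWalk)).trans ?_
    simp only [SimpleGraph.Walk.length_cons, SimpleGraph.Walk.length_nil]
    norm_num

theorem exists_sub {V : Type} [Nonempty V] (G : SimpleGraph V) (c : Sym2 V → Bool) (b : Bool)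
    (S : V → Prop) (h : Good (colAdj G c b) S) :
    ∃ H : G.Subgraph, Monochromatic c H ∧ H.verts.Nonempty ∧ H.coe.ediam ≤ ((2 : ℕ) : ℕ∞) ∧
      ∀ x, S x → x ∈ H.verts := by
  by_cases hS : ∃ x, S x
  · exact ⟨sub G c b S, sub_mono G c b S, hS, sub_ediam G c b S h, fun x hx => hx⟩
  · obtain ⟨v⟩ := ‹Nonempty V›
    refine ⟨sub G c b (fun x => x = v), sub_mono _ _ _ _, ⟨v, rfl⟩, sub_ediam _ _ _ _ ?_,
      fun x hx => absurd ⟨x, hx⟩ hS⟩
    intro x hx y hy
    exact near_eq hx hy

theorem hasCover_of {V : Type} [Nonempty V] (G : SimpleGraph V) (c : Sym2 V → Bool)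
    (S T : V → Prop) (hS : Good (colAdj G c true) S ∨ Good (colAdj G c false) S)
    (hT : Good (colAdj G c true) T ∨ Good (colAdj G c false) T) (h : ∀ x, S x ∨ T x) :
    HasCover G c 2 2 := by
  have key : ∀ S : V → Prop, (Good (colAdj G c true) S ∨ Good (colAdj G c false) S) →
      ∃ H : G.Subgraph, Monochromatic c H ∧ H.verts.Nonempty ∧ H.coe.ediam ≤ ((2 : ℕ) : ℕ∞) ∧
        ∀ x, S x → x ∈ H.verts := by
    rintro S (h | h)
    · exact exists_sub G c true S h
    · exact exists_sub G c false S h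
  obtain ⟨H₁, a1, a2, a3, a4⟩ := key S hS
  obtain ⟨H₂, b1, b2, b3, b4⟩ := key T hT
  refine ⟨H₁, H₂, a1, b1, a2, b2, a3, b3, Set.eq_univ_of_forall fun x => ?_⟩
  rcases h x with hx | hx
  · exact Or.inl (a4 x hx)
  · exact Or.inr (b4 x hx)

theorem colAdj_symm {V : Type} {G : SimpleGraph V} {c : Sym2 V → Bool} {b : Bool} {x y : V}
    (h : colAdj G c b x y) : colAdj G c b y x :=
  ⟨h.1.symm, by rw [Sym2.eq_swap]; exact h.2⟩

theorem good_star {V : Type} (G : SimpleGraph V) (c : Sym2 V → Bool) (b : Bool) (a : V) :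
    Good (colAdj G c b) (fun x => x = a ∨ colAdj G c b a x) := by
  rintro x (hx | hx) y (hy | hy)
  · exact near_eq hx hy
  · exact near_l hx hy
  · exact near_symm colAdj_symm (near_l hy hx)
  · exact near_hub a (Or.inl rfl) hx hy

theorem general (V : Type) [Nonempty V] (G : SimpleGraph V)
    (hG : ∀ v a b : V, a ≠ v → b ≠ v → ¬ G.Adj v a → ¬ G.Adj v b → a = b)
    (c : Sym2 V → Bool) : HasCover G c 2 2 := by
  by_cases h0 : ∃ v, ∀ a, a ≠ v → G.Adj v a
  · obtain ⟨v, hv⟩ := h0
    refine hasCover_of G c _ _ (Or.inl (good_star G c true v)) (Or.inr (good_star G c false v)) ?_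
    intro x
    by_cases hx : x = v
    · exact Or.inl (Or.inl hx)
    · cases hc : c s(v, x)
      · exact Or.inr (Or.inr ⟨hv x hx, hc⟩)
      · exact Or.inl (Or.inr ⟨hv x hx, hc⟩)
  · push Not at h0
    choose p hp1 hp2 using h0
    have hpu : ∀ x y, y ≠ x → ¬ G.Adj x y → y = p x := fun x y h1 h2 =>
      hG x y (p x) h1 (hp1 x) h2 (hp2 x)
    let K : Col V :=
      { p := p
        pp := fun x => (hpu (p x) x (hp1 x).symm (fun h => hp2 x h.symm)).symm
        R := colAdj G c true
        B := colAdj G c false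
        Rs := colAdj_symm
        Bs := colAdj_symm
        Rx := fun x h => G.loopless.irrefl x h.1
        Bx := fun x h => G.loopless.irrefl x h.1
        Rp := fun x h => hp2 x h.1
        Bp := fun x h => hp2 x h.1
        RB := fun h1 h2 => by
          have := h1.2.symm.trans h2.2
          exact absurd this (by decide)
        tot := fun x y h1 h2 => by
          have hadj : G.Adj x y := by
            by_contra h3
            exact h2 (hpu x y h1.symm h3)
          cases hc : c s(x, y)
          · exact Or.inr ⟨hadj, hc⟩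
          · exact Or.inl ⟨hadj, hc⟩ }
    obtain ⟨S, T, hS, hT, h⟩ := K.cover
    exact hasCover_of G c S T hS hT h

/-- Q1 has a positive answer (first part: the vertex set is `Fin n`, `M` is a perfect matching and
`Mᶜ` is the complete graph without the edges of `M`), and more generally every 2-colouring of a
nonempty graph, finite or infinite, in which every vertex is non-adjacent to at most one other
vertex has a `(2,2)`-cover. -/
theorem result :
    (∀ n : ℕ, Even n → 0 < n → ∀ M : SimpleGraph (Fin n), (∀ v, ∃! w, M.Adj v w) →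
      ∀ c : Sym2 (Fin n) → Bool, HasCover Mᶜ c 2 2) ∧
    (∀ (V : Type) [Nonempty V] (G : SimpleGraph V),
      (∀ v a b : V, a ≠ v → b ≠ v → ¬ G.Adj v a → ¬ G.Adj v b → a = b) →
      ∀ c : Sym2 V → Bool, HasCover G c 2 2) := by
  refine ⟨?_, fun V _ G hG c => general V G hG c⟩
  intro n _ hn M hM c
  have : Nonempty (Fin n) := ⟨⟨0, hn⟩⟩
  refine general (Fin n) Mᶜ ?_ c
  intro v a b ha hb h1 h2
  rw [SimpleGraph.compl_adj] at h1 h2
  have h1' : M.Adj v a := by
    by_contra h
    exact h1 ⟨ha.symm, h⟩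
  have h2' : M.Adj v b := by
    by_contra h
    exact h2 ⟨hb.symm, h⟩
  exact (hM v).unique h1' h2'

end Pool.Agent.Results.MP_9fa5c3_co.TwoTwoCovers
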